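import Mathlib
import Pool.Agent.Helper894.Five.Final

set_option autoImplicit false

namespace Pool.Agent.Results.MP_02a951_nt.LowerExponent

open Pool.Agent.Helper894.Five in
/-- For every integer `a` not divisible by 5 the quotient `log π_{a,5}(x) / log x` is at least
`0.448` for all sufficiently large `x`. -/
theorem result :
    ∀ a : ℤ, ¬ ((5 : ℤ) ∣ a) →
      ∀ᶠ x : ℝ in Filter.atTop,
        0.448 ≤ Real.log ((Set.ncard {n : ℤ | |(n : ℝ)| ≤ x ∧
              ∃ k : ℕ, (fun m : ℤ => if m % 2 = 0 then m / 2 else (5 * m + 1) / 2)^[k] n = a} : ℕ) : ℝ)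
            / Real.log x := by
  intro a ha
  have h := log_form (c := fun x => (DX a x).ncard) (main_all ha)
  filter_upwards [h] with x hx
  have e : {n : ℤ | |(n : ℝ)| ≤ x ∧
      ∃ k : ℕ, (fun m : ℤ => if m % 2 = 0 then m / 2 else (5 * m + 1) / 2)^[k] n = a} = DX a x := by
    ext n
    exact and_comm
  rw [e]
  exact hx

end Pool.Agent.Results.MP_02a951_nt.LowerExponent
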